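import Mathlib
import Pool.Agent.H17.Cubic

namespace Pool.Agent.Results.MP_c6f870_an.Local

open scoped ComplexOrder

/-- Bounded operators on a Hilbert space. -/
abbrev Op (K : Type) [NormedAddCommGroup K] [InnerProductSpace ℂ K] : Type := K →L[ℂ] K

/-- The Hilbert space adjoint. -/
noncomputable def adj {K : Type} [NormedAddCommGroup K] [InnerProductSpace ℂ K] [CompleteSpace K]
    (T : Op K) : Op K := ContinuousLinearMap.adjoint T

/-- `T` is hyponormal: `T* T - T T*` is a positive operator. -/
def Hyponormal {K : Type} [NormedAddCommGroup K] [InnerProductSpace ℂ K] [CompleteSpace K]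
    (T : Op K) : Prop :=
  ContinuousLinearMap.IsPositive ((adj T).comp T - T.comp (adj T))

/-- The operator `T + l T^2 + m T^3`. -/
noncomputable def cubic {K : Type} [NormedAddCommGroup K] [InnerProductSpace ℂ K]
    (T : Op K) (l m : ℂ) : Op K := T + l • T ^ 2 + m • T ^ 3

/-- `T` is cubically hyponormal. -/
def CubicallyHyponormal {K : Type} [NormedAddCommGroup K] [InnerProductSpace ℂ K]
    [CompleteSpace K] (T : Op K) : Prop :=
  ∀ l m : ℂ, Hyponormal (cubic T l m)

/-- The space `ℓ²(E)`. -/
abbrev L2 (E : Type) [NormedAddCommGroup E] : Type := lp (fun _ : ℕ => E) 2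

/-- The `n`-th entry of `W x`. -/
noncomputable def entry {E : Type} [NormedAddCommGroup E] [InnerProductSpace ℂ E] (W : Op (L2 E)) (x : L2 E)
    (n : ℕ) : E := W x n

/-- `W (x_0, x_1, ...) = (0, a_0 x_0, a_1 x_1, ...)`. -/
def IsShift {E : Type} [NormedAddCommGroup E] [InnerProductSpace ℂ E] (a : ℕ → E → E)
    (W : Op (L2 E)) : Prop :=
  ∀ x : L2 E, entry W x 0 = 0 ∧ ∀ n, entry W x (n + 1) = a n (x n)

/-- `ℂ^p` with its Euclidean norm. -/
abbrev Cp (p : ℕ) : Type := EuclideanSpace ℂ (Fin p)

/-- A matrix acting on `ℂ^p`. -/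
noncomputable def act {p : ℕ} (M : Matrix (Fin p) (Fin p) ℂ) (v : Cp p) : Cp p :=
  WithLp.toLp 2 (M.mulVec v.ofLp)

theorem result (p : ℕ) (A : ℕ → Matrix (Fin p) (Fin p) ℂ) (hA : ∀ n, (A n).PosDef)
    (W : Op (L2 (Cp p))) (hW : IsShift (fun n => act (A n)) W)
    (hcub : CubicallyHyponormal W)
    (x : Cp p) (k : ℕ) (hk : 1 ≤ k) (hx : act (A k) x = act (A (k + 1)) x) :
    ∀ n, 1 ≤ n → act (A n) x = act (A 1) x := by
  intro n hn
  exact Pool.Agent.H17.Cubic.general (fun n => Matrix.toEuclideanLin (A n)) W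
    (fun n => Matrix.isPositive_toEuclideanLin_iff.mpr (hA n).posSemidef)
    (fun n => by
      have hinj : Function.Injective (Matrix.toEuclideanLin (A n)) := by
        intro u v huv
        have h1 : (A n).mulVec u.ofLp = (A n).mulVec v.ofLp := congrArg WithLp.ofLp huv
        have h2 := Matrix.mulVec_injective_iff_isUnit.mpr (hA n).isUnit h1
        exact WithLp.ofLp_injective 2 h2
      exact ⟨hinj, LinearMap.injective_iff_surjective.mp hinj⟩)
    (fun x => (hW x).1) (fun x n => (hW x).2 n)
    (fun δ y => by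
      have := hcub 0 δ
      unfold cubic at this
      rw [zero_smul, add_zero] at this
      exact Pool.Agent.H17.Cubic.hypo_norm _ this y)
    x k hk hx n hn

end Pool.Agent.Results.MP_c6f870_an.Local
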